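import Mathlib

/-! Definitions for the statement about zeros in character tables of solvable groups. -/

namespace Pool.Agent.MP_c522d4_al

/-- The Fitting subgroup: the subgroup generated by all nilpotent normal subgroups. -/
def fittingSubgroup (G : Type) [Group G] : Subgroup G :=
  sSup {N : Subgroup G | N.Normal ∧ Group.IsNilpotent N}

theorem fittingSubgroup_normal (G : Type) [Group G] : (fittingSubgroup G).Normal :=
  Subgroup.sSup_normal _ (fun _ h => h.1)

/-- The Fitting series `F₀ = 1`, `F_{i+1}/F_i = F(G/F_i)`, with the proof that each term is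
normal. -/
def fittingSeries (G : Type) [Group G] : ℕ → {N : Subgroup G // N.Normal}
  | 0 => ⟨⊥, inferInstance⟩
  | i + 1 =>
    have : (fittingSeries G i).1.Normal := (fittingSeries G i).2
    ⟨(fittingSubgroup (G ⧸ (fittingSeries G i).1)).comap
      (QuotientGroup.mk' (fittingSeries G i).1), (fittingSubgroup_normal _).comap _⟩

/-- The Fitting height: the least `h` with `F_h = G`. -/
noncomputable def fittingHeight (G : Type) [Group G] : ℕ :=
  sInf {h : ℕ | (fittingSeries G h).1 = ⊤}

/-- The set of irreducible complex characters of `G`. -/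
def Irr (G : Type) [Group G] : Set (G → ℂ) :=
  {χ | ∃ V : FDRep ℂ G, CategoryTheory.Simple V ∧ V.character = χ}

/-- The proportion of zeros in the character table of `G`. -/
noncomputable def zeroProportion (G : Type) [Group G] : ℝ :=
  (Nat.card {q : ConjClasses G × Irr G // ∀ g ∈ q.1.carrier, q.2.1 g = 0} : ℝ) /
    ((Nat.card (ConjClasses G) : ℝ) * (Nat.card (Irr G) : ℝ))

end Pool.Agent.MP_c522d4_al
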