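import Pool.Agent.MP_c522d4_al.Defs

/-! Proofs for the statement about zeros in character tables of solvable groups. -/

namespace Pool.Agent.MP_c522d4_al

open scoped commutatorElement

theorem fitting_le_comap {A B : Type} [Group A] [Group B] (φ : A →* B)
    (hφ : Function.Surjective φ) : fittingSubgroup A ≤ (fittingSubgroup B).comap φ := by
  apply sSup_le
  rintro N ⟨hN, hnil⟩
  have h1 : (N.map φ).Normal := hN.map φ hφ
  have h2 : Group.IsNilpotent (N.map φ) :=
    Group.nilpotent_of_surjective (φ.subgroupMap N) (φ.subgroupMap_surjective N)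
  have h3 : N.map φ ≤ fittingSubgroup B := le_sSup ⟨h1, h2⟩
  exact Subgroup.map_le_iff_le_comap.mp h3

theorem derived_le_fittingSeries (G : Type) [Group G] (n : ℕ) (hn : derivedSeries G n = ⊥) :
    ∀ i ≤ n, derivedSeries G (n - i) ≤ (fittingSeries G i).1 := by
  intro i
  induction i with
  | zero => intro _; simp [hn]
  | succ i ih =>
    intro hi
    have ih' := ih (by omega)
    obtain ⟨j, hj⟩ : ∃ j, n - i = j + 1 := ⟨n - i - 1, by omega⟩
    have hj' : n - (i + 1) = j := by omega
    rw [hj] at ih'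
    rw [hj']
    have hN : (fittingSeries G i).1.Normal := (fittingSeries G i).2
    show derivedSeries G j ≤ (fittingSubgroup (G ⧸ (fittingSeries G i).1)).comap
      (QuotientGroup.mk' (fittingSeries G i).1)
    rw [← Subgroup.map_le_iff_le_comap]
    have hD : (derivedSeries G j).Normal := inferInstance
    apply le_sSup
    refine ⟨hD.map _ (QuotientGroup.mk'_surjective _), ?_⟩
    rw [Subgroup.isNilpotent_iff_lowerCentralSeries]
    refine ⟨1, ?_⟩
    rw [Subgroup.lowerCentralSeries_succ, Subgroup.lowerCentralSeries_zero,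
      ← Subgroup.map_commutator]
    rw [eq_bot_iff, Subgroup.map_le_iff_le_comap]
    have : ⁅derivedSeries G j, derivedSeries G j⁆ = derivedSeries G (j+1) := rfl
    rw [this]
    refine ih'.trans ?_
    intro x hx
    rw [Subgroup.mem_comap, Subgroup.mem_bot]
    exact (QuotientGroup.eq_one_iff x).mpr hx

theorem exists_fittingSeries_eq_top (G : Type) [Group G] [Group.IsSolvable G] :
    ∃ n, (fittingSeries G n).1 = ⊤ := by
  obtain ⟨n, hn⟩ := (Group.isSolvable_def G).mp inferInstance
  refine ⟨n, ?_⟩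
  have := derived_le_fittingSeries G n hn n le_rfl
  rw [Nat.sub_self] at this
  exact top_le_iff.mp this

theorem fittingHeight_spec (G : Type) [Group G] [Group.IsSolvable G] :
    (fittingSeries G (fittingHeight G)).1 = ⊤ :=
  Nat.sInf_mem (exists_fittingSeries_eq_top G)

theorem fittingSeries_le_comap {G H : Type} [Group G] [Group H] (π : G →* H)
    (hπ : Function.Surjective π) (hF : fittingSubgroup G ≤ π.ker) (i : ℕ) :
    (fittingSeries G (i + 1)).1 ≤ ((fittingSeries H i).1).comap π := by
  induction i with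
  | zero =>
    intro x hx
    change x ∈ π.ker
    apply hF
    have hx' : QuotientGroup.mk' (⊥ : Subgroup G) x ∈ fittingSubgroup (G ⧸ (⊥ : Subgroup G)) := hx
    exact fitting_le_comap (QuotientGroup.quotientBot (G := G)).toMonoidHom
      (QuotientGroup.quotientBot (G := G)).surjective hx'
  | succ i ih =>
    have hN : (fittingSeries G (i+1)).1.Normal := (fittingSeries G (i+1)).2
    have hM : (fittingSeries H i).1.Normal := (fittingSeries H i).2
    intro x hx
    have hx' : QuotientGroup.mk' (fittingSeries G (i+1)).1 x ∈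
      fittingSubgroup (G ⧸ (fittingSeries G (i+1)).1) := hx
    let ψ : G ⧸ (fittingSeries G (i+1)).1 →* H ⧸ (fittingSeries H i).1 :=
      QuotientGroup.map _ _ π ih
    have hψ : Function.Surjective ψ := by
      intro y
      obtain ⟨y, rfl⟩ := QuotientGroup.mk_surjective y
      obtain ⟨x, rfl⟩ := hπ y
      exact ⟨(x : G ⧸ (fittingSeries G (i+1)).1), rfl⟩
    exact fitting_le_comap ψ hψ hx'

theorem fittingHeight_lt {G H : Type} [Group G] [Group H] [Group.IsSolvable G] [Nontrivial G]
    (π : G →* H) (hπ : Function.Surjective π) (hF : fittingSubgroup G ≤ π.ker) :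
    fittingHeight H + 1 ≤ fittingHeight G := by
  have h1 := fittingHeight_spec G
  rcases hn : fittingHeight G with _ | m
  · rw [hn] at h1
    exact absurd h1 (bot_ne_top)
  · rw [hn] at h1
    have h2 := fittingSeries_le_comap π hπ hF m
    rw [h1] at h2
    have h3 : (fittingSeries H m).1 = ⊤ := by
      rw [eq_top_iff]
      intro y _
      obtain ⟨x, rfl⟩ := hπ y
      exact h2 (Subgroup.mem_top x)
    have : fittingHeight H ≤ m := Nat.sInf_le h3
    omega

theorem linearIndependent_irr (G : Type) [Group G] [Finite G] :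
    LinearIndependent ℂ (fun χ : Irr G => (χ.1 : G → ℂ)) := by
  classical
  have : Fintype G := Fintype.ofFinite G
  have hinv : Invertible (Nat.card G : ℂ) := invertibleOfNonzero (by
    exact_mod_cast Nat.card_pos.ne')
  rw [linearIndependent_iff']
  intro s c hc χ hχ
  obtain ⟨V, hV, hVχ⟩ := χ.2
  have h1 : ∑ g : G, (∑ i ∈ s, c i • (i.1 : G → ℂ)) g * χ.1 g⁻¹ = 0 := by
    rw [hc]; simp
  simp only [Finset.sum_apply, Pi.smul_apply, smul_eq_mul, Finset.sum_mul] at h1
  rw [Finset.sum_comm] at h1
  have h2 : ∀ i ∈ s, ∑ g : G, c i * i.1 g * χ.1 g⁻¹ = if i = χ then c i * (Nat.card G : ℂ) else 0 := by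
    intro i _
    obtain ⟨W, hW, hWi⟩ := i.2
    have h3 := FDRep.char_orthonormal W V
    rw [hVχ, hWi] at h3
    have h4 : ∑ g : G, c i * i.1 g * χ.1 g⁻¹ = c i * ((Nat.card G : ℂ) * ((Nat.card G : ℂ)⁻¹ *
        ∑ g : G, i.1 g * χ.1 g⁻¹)) := by
      rw [mul_inv_cancel_left₀ (by exact_mod_cast Nat.card_pos.ne'), Finset.mul_sum]
      simp [mul_assoc]
    rw [h4, h3]
    by_cases hiχ : i = χ
    · subst hiχ
      have hi : Nonempty (W ≅ V) := by
        by_contra hno
        rw [if_neg hno] at h3
        have h5 := FDRep.char_orthonormal V V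
        rw [hVχ, if_pos ⟨CategoryTheory.Iso.refl V⟩] at h5
        rw [h5] at h3
        exact one_ne_zero h3
      simp [hi]
    · have : ¬ Nonempty (W ≅ V) := by
        rintro ⟨e⟩
        apply hiχ
        apply Subtype.ext
        rw [← hVχ, ← hWi]
        exact FDRep.char_iso e
      simp [this, hiχ]
  rw [Finset.sum_congr rfl h2] at h1
  rw [Finset.sum_ite_eq' s χ, if_pos hχ] at h1
  exact (mul_eq_zero.mp h1).resolve_right (by exact_mod_cast Nat.card_pos.ne')

theorem linearIndependent_irr_classes (G : Type) [Group G] [Finite G] :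
    LinearIndependent ℂ (fun χ : Irr G => (fun c : ConjClasses G => χ.1 c.out)) := by
  let L : (ConjClasses G → ℂ) →ₗ[ℂ] (G → ℂ) :=
    { toFun := fun f g => f (ConjClasses.mk g)
      map_add' := fun _ _ => rfl
      map_smul' := fun _ _ => rfl }
  apply LinearIndependent.of_comp L
  have : (L ∘ fun χ : Irr G => (fun c : ConjClasses G => χ.1 c.out)) =
      fun χ : Irr G => (χ.1 : G → ℂ) := by
    ext χ g
    obtain ⟨V, hV, hVχ⟩ := χ.2
    show χ.1 (Quotient.out (ConjClasses.mk g)) = χ.1 g
    have h1 : IsConj (Quotient.out (ConjClasses.mk g)) g := by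
      rw [← ConjClasses.mk_eq_mk_iff_isConj]
      exact Quotient.out_eq _
    obtain ⟨c, hc⟩ := isConj_iff.mp h1
    have h2 := FDRep.char_conj V (Quotient.out (ConjClasses.mk g)) c
    rw [hc] at h2
    rw [← hVχ]
    exact h2.symm
  rw [this]
  exact linearIndependent_irr G

theorem finite_irr (G : Type) [Group G] [Finite G] : Finite (Irr G) :=
  (linearIndependent_irr_classes G).finite

theorem card_irr_le (G : Type) [Group G] [Finite G] :
    Nat.card (Irr G) ≤ Nat.card (ConjClasses G) := by
  have := finite_irr G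
  have : Fintype (Irr G) := Fintype.ofFinite _
  have : Fintype (ConjClasses G) := Fintype.ofFinite _
  have h := (linearIndependent_irr_classes G).fintype_card_le_finrank
  rw [Module.finrank_fintype_fun_eq_card] at h
  rwa [Nat.card_eq_fintype_card, Nat.card_eq_fintype_card]

/-- The regular wreath product of the cyclic group `ZMod p` by `H`, with additive base. -/
@[ext] structure Wr (p : ℕ) (H : Type) where
  /-- base component -/
  v : H → ZMod p
  /-- top component -/
  h : H

namespace Wr

variable {p : ℕ} {H : Type} [Group H]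

/-- translation action of `H` on the base -/
def act (x : H) (w : H → ZMod p) : H → ZMod p := fun z => w (x⁻¹ * z)

instance : Mul (Wr p H) := ⟨fun a b => ⟨a.v + act a.h b.v, a.h * b.h⟩⟩
instance : One (Wr p H) := ⟨⟨0, 1⟩⟩
instance : Inv (Wr p H) := ⟨fun a => ⟨-(act a.h⁻¹ a.v), a.h⁻¹⟩⟩

@[simp] theorem mul_v (a b : Wr p H) : (a * b).v = a.v + act a.h b.v := rfl
@[simp] theorem mul_h (a b : Wr p H) : (a * b).h = a.h * b.h := rfl
@[simp] theorem one_v : (1 : Wr p H).v = 0 := rfl
@[simp] theorem one_h : (1 : Wr p H).h = 1 := rfl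
@[simp] theorem inv_v (a : Wr p H) : (a⁻¹).v = -(act a.h⁻¹ a.v) := rfl
@[simp] theorem inv_h (a : Wr p H) : (a⁻¹).h = a.h⁻¹ := rfl
@[simp] theorem act_apply (x : H) (w : H → ZMod p) (z : H) : act x w z = w (x⁻¹ * z) := rfl

instance : Group (Wr p H) where
  mul_assoc a b c := by
    ext
    · simp [add_assoc, mul_assoc]
    · simp [mul_assoc]
  one_mul a := by ext <;> simp
  mul_one a := by ext <;> simp
  inv_mul_cancel a := by ext <;> simp

/-- underlying equivalence with a product -/
def equivProd (p : ℕ) (H : Type) : Wr p H ≃ (H → ZMod p) × H where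
  toFun a := (a.v, a.h)
  invFun a := ⟨a.1, a.2⟩
  left_inv _ := rfl
  right_inv _ := rfl

instance [NeZero p] [Finite H] : Finite (Wr p H) := Finite.of_equiv _ (equivProd p H).symm

/-- projection to `H` -/
def proj : Wr p H →* H where
  toFun := Wr.h
  map_one' := rfl
  map_mul' _ _ := rfl

@[simp] theorem proj_apply (a : Wr p H) : proj a = a.h := rfl

theorem proj_surjective : Function.Surjective (proj : Wr p H →* H) := fun x => ⟨⟨0, x⟩, rfl⟩

/-- inclusion of the base -/
def base : Multiplicative (H → ZMod p) →* Wr p H where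
  toFun w := ⟨Multiplicative.toAdd w, 1⟩
  map_one' := rfl
  map_mul' a b := by ext <;> simp

theorem solvable [Group.IsSolvable H] : Group.IsSolvable (Wr p H) := by
  apply Group.isSolvable_of_ker_le_range (base : Multiplicative (H → ZMod p) →* Wr p H) proj
  intro a ha
  refine ⟨Multiplicative.ofAdd a.v, ?_⟩
  ext
  · rfl
  · exact (MonoidHom.mem_ker.mp ha).symm

theorem mem_lcs {N : Subgroup (Wr p H)} (hN : N.Normal) {n : Wr p H} (hn : n ∈ N) (k : ℕ)
    (w : H → ZMod p) :
    (⟨(fun u : H → ZMod p => u - act n.h u)^[k+1] w, 1⟩ : Wr p H) ∈ N.lowerCentralSeries k := by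
  have key : ∀ u : H → ZMod p, ⁅(⟨u, 1⟩ : Wr p H), n⁆ = ⟨u - act n.h u, 1⟩ := by
    intro u
    rw [commutatorElement_def]
    ext z
    · simp
      abel
    · simp
  induction k with
  | zero =>
    have h1 : ⁅(⟨w, 1⟩ : Wr p H), n⁆ ∈ N := by
      rw [commutatorElement_def]
      exact N.mul_mem (hN.conj_mem n hn _) (N.inv_mem hn)
    rw [key] at h1
    simpa using h1
  | succ k ih =>
    rw [Function.iterate_succ_apply', Subgroup.lowerCentralSeries_succ, ← key]
    exact Subgroup.commutator_mem_commutator ih hn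

theorem act_pow (x : H) (k : ℕ) (w : H → ZMod p) : (act x)^[k] w = act (x ^ k) w := by
  induction k with
  | zero => ext z; simp
  | succ k ih =>
    rw [Function.iterate_succ_apply', ih]
    ext z
    simp only [act_apply, pow_succ', mul_inv_rev, mul_assoc]

/-- the linear map given by `act x` -/
def actL (x : H) : Module.End (ZMod p) (H → ZMod p) where
  toFun := act x
  map_add' _ _ := rfl
  map_smul' _ _ := rfl

theorem normal_nilpotent_le_ker [hp : Fact p.Prime] [Finite H] (hc : (Nat.card H).Coprime p)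
    {N : Subgroup (Wr p H)} (hN : N.Normal) (hnil : Group.IsNilpotent N) :
    N ≤ (proj : Wr p H →* H).ker := by
  classical
  intro n hn
  rw [MonoidHom.mem_ker, proj_apply]
  obtain ⟨c, hc'⟩ := (Subgroup.isNilpotent_iff_lowerCentralSeries N).mp hnil
  have h1 : ∀ w : H → ZMod p, (fun u : H → ZMod p => u - act n.h u)^[c+1] w = 0 := by
    intro w
    have := mem_lcs hN hn c w
    rw [hc', Subgroup.mem_bot] at this
    exact congrArg Wr.v this
  set T : Module.End (ZMod p) (H → ZMod p) := 1 - actL n.h with hT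
  have h2 : T ^ (c+1) = 0 := by
    apply LinearMap.ext
    intro w
    rw [Module.End.pow_apply, LinearMap.zero_apply]
    exact h1 w
  have hlt : c + 1 ≤ p ^ (c+1) := (Nat.lt_pow_self hp.out.one_lt).le
  have h3 : T ^ (p ^ (c+1)) = 0 := pow_eq_zero_of_le hlt h2
  have h4 : T ^ (p ^ (c+1)) = 1 - (actL n.h) ^ (p ^ (c+1)) := by
    have : ((1 - Polynomial.X : Polynomial (ZMod p))) ^ (p ^ (c+1)) =
      1 - Polynomial.X ^ (p ^ (c+1)) := by
      rw [sub_pow_char_pow, one_pow]
    have h5 := congrArg (Polynomial.aeval (actL (p := p) n.h)) this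
    simpa using h5
  rw [h3] at h4
  have h5 : (actL (p := p) n.h) ^ (p ^ (c+1)) = 1 := by
    rw [eq_comm, sub_eq_zero] at h4; exact h4.symm
  have h6 : act (n.h ^ (p ^ (c+1))) (Pi.single 1 1 : H → ZMod p) = Pi.single 1 1 := by
    have := LinearMap.congr_fun h5 (Pi.single 1 1 : H → ZMod p)
    rw [Module.End.pow_apply] at this
    rw [← act_pow]
    exact this
  have h7 : n.h ^ (p ^ (c+1)) = 1 := by
    have := congrFun h6 (n.h ^ (p ^ (c+1)))
    simp only [act_apply, inv_mul_cancel, Pi.single_eq_same] at this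
    by_contra hne
    rw [Pi.single_eq_of_ne hne] at this
    exact one_ne_zero this
  have h8 : orderOf n.h ∣ p ^ (c+1) := orderOf_dvd_of_pow_eq_one h7
  have h9 : orderOf n.h ∣ Nat.card H := orderOf_dvd_natCard n.h
  have h10 : orderOf n.h ∣ 1 := by
    have hcop : Nat.Coprime (Nat.card H) (p ^ (c+1)) := Nat.Coprime.pow_right _ hc
    rw [← hcop]
    exact Nat.dvd_gcd h9 h8
  exact orderOf_eq_one_iff.mp (Nat.dvd_one.mp h10)

theorem fittingHeight_succ_le [hp : Fact p.Prime] [Finite H] [Group.IsSolvable H]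
    (hc : (Nat.card H).Coprime p) : fittingHeight H + 1 ≤ fittingHeight (Wr p H) := by
  have : Group.IsSolvable (Wr p H) := solvable
  have : Nontrivial (Wr p H) := ⟨⟨⟨1, 1⟩, 1, by
    intro h
    have := congrFun (congrArg Wr.v h) 1
    simp at this⟩⟩
  apply fittingHeight_lt proj proj_surjective
  apply sSup_le
  rintro N ⟨hN, hnil⟩
  exact normal_nilpotent_le_ker hc hN hnil

section Characters

variable [Fintype H]

omit [Group H] in
/-- the pairing on the base -/
def pair (a v : H → ZMod p) : ZMod p := ∑ z, a z * v z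

omit [Group H] in
theorem pair_def (a v : H → ZMod p) : pair a v = ∑ z, a z * v z := rfl

omit [Group H] in
theorem pair_add_right (a v w : H → ZMod p) : pair a (v + w) = pair a v + pair a w := by
  simp [pair_def, mul_add, Finset.sum_add_distrib]

theorem pair_act (a w : H → ZMod p) (y x : H) :
    pair (act y a) (act x w) = pair (act (x⁻¹ * y) a) w := by
  simp only [pair_def, act_apply]
  rw [← Equiv.sum_comp (Equiv.mulLeft x)]
  apply Finset.sum_congr rfl
  intro z _
  simp [mul_assoc]

/-- The representation of `Wr p H` on functions on `H` induced from the character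
`v ↦ ψ(⟨a, v⟩)` of the base. -/
noncomputable def rep [NeZero p] (a : H → ZMod p) : Representation ℂ (Wr p H) (H → ℂ) where
  toFun g :=
    { toFun := fun f y => ZMod.stdAddChar (pair (act y a) g.v) * f (g.h⁻¹ * y)
      map_add' := fun f f' => by ext y; simp [mul_add]
      map_smul' := fun c f => by ext y; simp; ring }
  map_one' := by
    ext f y
    simp [pair_def]
  map_mul' g g' := by
    apply LinearMap.ext
    intro f
    ext y
    simp only [mul_v, mul_h, LinearMap.coe_mk, AddHom.coe_mk, Module.End.mul_apply]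
    rw [pair_add_right, pair_act, AddChar.map_add_eq_mul, mul_assoc, mul_inv_rev, mul_assoc]

theorem char_rep [NeZero p] (a : H → ZMod p) (g : Wr p H) [Decidable (g.h = 1)] :
    (FDRep.of (rep a)).character g =
      if g.h = 1 then ∑ y, (ZMod.stdAddChar (pair (act y a) g.v) : ℂ) else 0 := by
  classical
  unfold FDRep.character
  rw [FDRep.of_ρ', LinearMap.trace_eq_matrix_trace ℂ (Pi.basisFun ℂ H), Matrix.trace]
  have : ∀ y : H, ((LinearMap.toMatrix (Pi.basisFun ℂ H) (Pi.basisFun ℂ H)) (rep a g)).diag y =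
      if g.h = 1 then (ZMod.stdAddChar (pair (act y a) g.v) : ℂ) else 0 := by
    intro y
    rw [Matrix.diag_apply, LinearMap.toMatrix_apply]
    simp only [Pi.basisFun_apply, Pi.basisFun_repr]
    change ZMod.stdAddChar (pair (act y a) g.v) * (Pi.single y (1:ℂ) : H → ℂ) (g.h⁻¹ * y) = _
    rw [Pi.single_apply]
    by_cases h : g.h = 1
    · simp [h]
    · have : ¬ (g.h⁻¹ * y = y) := by
        intro h'
        apply h
        have := mul_eq_right.mp h'
        exact inv_eq_one.mp this
      simp [h, this]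
  rw [Finset.sum_congr rfl (fun y _ => this y)]
  split_ifs <;> simp

/-- the additive character `v ↦ ψ(⟨b, v⟩)` of the base -/
noncomputable def baseChar [NeZero p] (b : H → ZMod p) : AddChar (H → ZMod p) ℂ where
  toFun v := ZMod.stdAddChar (pair b v)
  map_zero_eq_one' := by simp [pair_def]
  map_add_eq_mul' v w := by rw [pair_add_right, AddChar.map_add_eq_mul]

omit [Group H] in
theorem baseChar_apply [NeZero p] (b v : H → ZMod p) :
    baseChar b v = ZMod.stdAddChar (pair b v) := rfl

omit [Group H] in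
theorem baseChar_eq_zero_iff [NeZero p] (b : H → ZMod p) : baseChar b = 0 ↔ b = 0 := by
  classical
  constructor
  · intro h
    ext z
    have h1 := DFunLike.congr_fun h (Pi.single z 1)
    rw [baseChar_apply, AddChar.zero_apply] at h1
    rw [← (ZMod.stdAddChar (N := p)).map_zero_eq_one] at h1
    have h2 := ZMod.injective_stdAddChar h1
    rw [pair_def] at h2
    simpa [Pi.single_apply] using h2
  · rintro rfl
    ext v
    simp [baseChar_apply, pair_def]

omit [Group H] in
theorem sum_baseChar [NeZero p] [DecidableEq H] (b : H → ZMod p) :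
    ∑ v, (ZMod.stdAddChar (pair b v) : ℂ) = if b = 0 then (Nat.card (H → ZMod p) : ℂ) else 0 := by
  classical
  have := AddChar.sum_eq_ite (baseChar b)
  simp only [baseChar_apply, baseChar_eq_zero_iff] at this
  rw [this, Nat.card_eq_fintype_card]

omit [Group H] in
theorem pair_neg_right (a v : H → ZMod p) : pair a (-v) = - pair a v := by
  simp [pair_def]

omit [Group H] in
theorem pair_sub_left (a b v : H → ZMod p) : pair (a - b) v = pair a v - pair b v := by
  simp [pair_def, sub_mul, Finset.sum_sub_distrib]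

omit [Group H] in
theorem sum_mul_baseChar [NeZero p] [DecidableEq H] (b c : H → ZMod p) :
    ∑ v, (ZMod.stdAddChar (pair b v) * ZMod.stdAddChar (pair c (-v)) : ℂ) =
      if b = c then (Nat.card (H → ZMod p) : ℂ) else 0 := by
  have : ∀ v, (ZMod.stdAddChar (pair b v) * ZMod.stdAddChar (pair c (-v)) : ℂ) =
      ZMod.stdAddChar (pair (b - c) v) := by
    intro v
    rw [← AddChar.map_add_eq_mul, pair_neg_right, pair_sub_left, sub_eq_add_neg]
  simp_rw [this, sum_baseChar, sub_eq_zero]

/-- vectors in the base on which `H` acts regularly -/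
def Regular (a : H → ZMod p) : Prop := ∀ x, act x a = a → x = 1

omit [Fintype H] in
theorem act_mul (x y : H) (w : H → ZMod p) : act (x * y) w = act x (act y w) := by
  ext z
  simp [mul_assoc]

omit [Fintype H] in
theorem act_one (w : H → ZMod p) : act 1 w = w := by
  ext z
  simp

omit [Fintype H] in
theorem Regular.inj {a : H → ZMod p} (ha : Regular a) {x y : H} (h : act x a = act y a) :
    x = y := by
  have : act (y⁻¹ * x) a = a := by
    rw [act_mul, h, ← act_mul, inv_mul_cancel, act_one]
  have := ha _ this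
  rw [inv_mul_eq_one] at this
  exact this.symm

theorem simple_rep [NeZero p] {a : H → ZMod p} (ha : Regular a) :
    CategoryTheory.Simple (FDRep.of (rep a)) := by
  classical
  have : Fintype (Wr p H) := Fintype.ofFinite _
  rw [FDRep.simple_iff_char_is_norm_one]
  have h1 : ∀ g : Wr p H, (FDRep.of (rep a)).character g * (FDRep.of (rep a)).character g⁻¹ =
      if g.h = 1 then (∑ y, (ZMod.stdAddChar (pair (act y a) g.v) : ℂ)) *
        (∑ y, (ZMod.stdAddChar (pair (act y a) (-g.v)) : ℂ)) else 0 := by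
    intro g
    rw [char_rep, char_rep]
    by_cases h : g.h = 1
    · simp [h, act_one]
    · simp [h]
  rw [Finset.sum_congr rfl (fun g _ => h1 g)]
  rw [← Equiv.sum_comp (equivProd p H).symm, Fintype.sum_prod_type]
  have h2 : ∀ v : H → ZMod p, (∑ x : H, if ((equivProd p H).symm (v, x)).h = 1 then
      (∑ y, (ZMod.stdAddChar (pair (act y a) ((equivProd p H).symm (v, x)).v) : ℂ)) *
        (∑ y, (ZMod.stdAddChar (pair (act y a) (-((equivProd p H).symm (v, x)).v)) : ℂ)) else 0) =
      (∑ y, (ZMod.stdAddChar (pair (act y a) v) : ℂ)) *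
        (∑ y, (ZMod.stdAddChar (pair (act y a) (-v)) : ℂ)) := by
    intro v
    have : ∀ x : H, (if ((equivProd p H).symm (v, x)).h = 1 then
      (∑ y, (ZMod.stdAddChar (pair (act y a) ((equivProd p H).symm (v, x)).v) : ℂ)) *
        (∑ y, (ZMod.stdAddChar (pair (act y a) (-((equivProd p H).symm (v, x)).v)) : ℂ)) else 0) =
      if x = 1 then (∑ y, (ZMod.stdAddChar (pair (act y a) v) : ℂ)) *
        (∑ y, (ZMod.stdAddChar (pair (act y a) (-v)) : ℂ)) else 0 := fun x => rfl
    rw [Finset.sum_congr rfl (fun x _ => this x)]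
    simp
  rw [Finset.sum_congr rfl (fun v _ => h2 v)]
  simp_rw [Finset.sum_mul_sum]
  rw [Finset.sum_comm]
  simp_rw [Finset.sum_comm (s := (Finset.univ : Finset (H → ZMod p))), sum_mul_baseChar]
  have h3 : ∀ x y : H, (act x a = act y a) ↔ (x = y) := fun x y =>
    ⟨fun h => ha.inj h, fun h => by rw [h]⟩
  simp_rw [h3]
  rw [Nat.card_congr (equivProd p H), Nat.card_prod]
  simp [mul_comm]

theorem exists_act_eq_of_char_eq [NeZero p] {a b : H → ZMod p}
    (h : (FDRep.of (rep a)).character = (FDRep.of (rep b)).character) :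
    ∃ y, act y a = b := by
  classical
  have key : ∀ c : H → ZMod p,
      ∑ v, (FDRep.of (rep c)).character ⟨v, 1⟩ * (ZMod.stdAddChar (pair b (-v)) : ℂ) =
      ∑ y, if act y c = b then (Nat.card (H → ZMod p) : ℂ) else 0 := by
    intro c
    have : ∀ v, (FDRep.of (rep c)).character ⟨v, 1⟩ * (ZMod.stdAddChar (pair b (-v)) : ℂ) =
        ∑ y, (ZMod.stdAddChar (pair (act y c) v) * ZMod.stdAddChar (pair b (-v)) : ℂ) := by
      intro v
      rw [char_rep]
      simp [Finset.sum_mul]
    rw [Finset.sum_congr rfl (fun v _ => this v), Finset.sum_comm]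
    simp_rw [sum_mul_baseChar]
  by_contra hne
  push Not at hne
  have h1 := key a
  have h2 := key b
  rw [h, h2] at h1
  rw [Finset.sum_eq_zero (f := fun y => if act y a = b then (Nat.card (H → ZMod p) : ℂ) else 0)
    (fun y _ => by rw [if_neg (hne y)])] at h1
  rw [Finset.sum_ite, Finset.sum_const_zero, add_zero, Finset.sum_const, nsmul_eq_mul,
    mul_eq_zero] at h1
  rcases h1 with h1 | h1
  · rw [Nat.cast_eq_zero, Finset.card_eq_zero, Finset.filter_eq_empty_iff] at h1
    exact h1 (Finset.mem_univ 1) (act_one b)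
  · rw [Nat.cast_eq_zero] at h1
    exact Nat.card_pos.ne' h1

omit [Group H] in
theorem dvd_card_of_sum_eq_zero [hp : Fact p.Prime] (c : H → ZMod p)
    (h : ∑ y, (ZMod.stdAddChar (c y) : ℂ) = 0) : p ∣ Fintype.card H := by
  have hζ : IsPrimitiveRoot (Complex.exp (2 * Real.pi * Complex.I / p)) p :=
    Complex.isPrimitiveRoot_exp p hp.out.ne_zero
  set ζ := Complex.exp (2 * Real.pi * Complex.I / p) with hζdef
  have h1 : ∀ j : ZMod p, (ZMod.stdAddChar j : ℂ) = ζ ^ j.val := by
    intro j
    have := ZMod.stdAddChar_coe (N := p) (j.val : ℤ)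
    rw [Int.cast_natCast, ZMod.natCast_zmod_val] at this
    rw [this, hζdef, ← Complex.exp_nat_mul]
    congr 1
    push_cast
    ring
  simp_rw [h1] at h
  set f : Polynomial ℤ := ∑ y, Polynomial.X ^ (c y).val with hf
  have h2 : Polynomial.aeval ζ f = 0 := by
    rw [hf]
    simpa using h
  have h3 : Polynomial.cyclotomic p ℤ ∣ f := by
    rw [Polynomial.cyclotomic_eq_minpoly hζ hp.out.pos]
    exact minpoly.isIntegrallyClosed_dvd (hζ.isIntegral hp.out.pos) h2
  obtain ⟨q, hq⟩ := h3
  have h4 : (p : ℤ) ∣ (Fintype.card H : ℤ) := by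
    refine ⟨q.eval 1, ?_⟩
    have := congrArg (Polynomial.eval 1) hq
    rw [Polynomial.eval_mul, Polynomial.eval_one_cyclotomic_prime] at this
    rw [← this, hf]
    simp [Polynomial.eval_finsetSum]
  exact_mod_cast h4

section Counting

variable [hp : Fact p.Prime]

omit [Fintype H] in
theorem fixed_aux [DecidableEq H] {x : H} (hx : x ≠ 1) {c : ZMod p}
    (h : act x (Pi.single 1 c : H → ZMod p) = Pi.single 1 c) : c = 0 := by
  have h1 := congrFun h x
  rw [act_apply, inv_mul_cancel, Pi.single_eq_same, Pi.single_eq_of_ne hx] at h1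
  exact h1

omit [Fintype H] in
theorem act_sub (x : H) (v w : H → ZMod p) : act x (v - w) = act x v - act x w := rfl

omit [Fintype H] in
theorem single_eq_of_act_eq [DecidableEq H] {x : H} (hx : x ≠ 1) {a a' : H → ZMod p}
    {c c' : ZMod p} (hd : act x (a - a') = a - a')
    (h : a + Pi.single 1 c = a' + Pi.single 1 c') : c = c' ∧ a = a' := by
  have h1 : a - a' = Pi.single 1 (c' - c) := by
    rw [Pi.single_sub]
    have : a = a' + Pi.single 1 c' - Pi.single 1 c := by rw [← h]; simp
    rw [this]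
    abel
  rw [h1] at hd
  have h2 := fixed_aux hx hd
  have h3 : c = c' := (sub_eq_zero.mp h2).symm
  refine ⟨h3, ?_⟩
  subst h3
  exact add_right_cancel h

/-- few non-regular vectors -/
theorem card_not_regular : p * Nat.card {a : H → ZMod p // ¬ Regular a} ≤
    Nat.card (H → ZMod p) * Nat.card H := by
  classical
  have hx : ∀ a : {a : H → ZMod p // ¬ Regular a}, ∃ x : H, act x a.1 = a.1 ∧ x ≠ 1 := by
    intro a
    have := a.2
    unfold Regular at this
    push Not at this
    exact this
  choose x hx1 hx2 using hx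
  have : Nat.card (ZMod p × {a : H → ZMod p // ¬ Regular a}) ≤
      Nat.card ((H → ZMod p) × H) := by
    apply Nat.card_le_card_of_injective
      (fun q : ZMod p × {a : H → ZMod p // ¬ Regular a} => (q.2.1 + Pi.single 1 q.1, x q.2))
    rintro ⟨c, a⟩ ⟨c', a'⟩ h
    simp only [Prod.mk.injEq] at h
    obtain ⟨h1, h2⟩ := h
    have h3 : act (x a) (a.1 - a'.1) = a.1 - a'.1 := by
      rw [act_sub, hx1 a, h2, hx1 a']
    obtain ⟨h4, h5⟩ := single_eq_of_act_eq (hx2 a) h3 h1
    rw [Prod.mk.injEq]
    exact ⟨h4, Subtype.ext h5⟩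
  rw [Nat.card_prod, Nat.card_prod, Nat.card_zmod] at this
  exact this

theorem card_comm_aux : p * Nat.card {q : Wr p H × Wr p H // Commute q.1 q.2 ∧
      ¬ (q.1.h = 1 ∧ q.2.h = 1)} ≤
    (Nat.card (H → ZMod p) * Nat.card (H → ZMod p)) * (Nat.card H * Nat.card H) := by
  classical
  have : Nat.card (ZMod p × {q : Wr p H × Wr p H // Commute q.1 q.2 ∧
      ¬ (q.1.h = 1 ∧ q.2.h = 1)}) ≤
      Nat.card (((H → ZMod p) × (H → ZMod p)) × (H × H)) := by
    apply Nat.card_le_card_of_injective
      (fun r : ZMod p × {q : Wr p H × Wr p H // Commute q.1 q.2 ∧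
      ¬ (q.1.h = 1 ∧ q.2.h = 1)} =>
        ((if r.2.1.1.h = 1 then (r.2.1.1.v + Pi.single 1 r.1, r.2.1.2.v) else
          (r.2.1.1.v, r.2.1.2.v + Pi.single 1 r.1)), (r.2.1.1.h, r.2.1.2.h)))
    rintro ⟨c, ⟨⟨⟨v, x⟩, ⟨w, y⟩⟩, hc1, hc2⟩⟩ ⟨c', ⟨⟨⟨v', x'⟩, ⟨w', y'⟩⟩, hc1', hc2'⟩⟩ h
    simp only [Prod.mk.injEq] at h
    obtain ⟨h1, h2, h3⟩ := h
    subst h2
    subst h3
    have e1 : v + act x w = w + act y v := congrArg Wr.v hc1.eq
    have e2 : v' + act x w' = w' + act y v' := congrArg Wr.v hc1'.eq
    by_cases hx : x = 1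
    · have hy : y ≠ 1 := fun hy => hc2 ⟨hx, hy⟩
      rw [if_pos hx, if_pos hx, Prod.mk.injEq] at h1
      obtain ⟨h4, h5⟩ := h1
      subst h5
      have h6 : act y (v - v') = v - v' := by
        rw [act_sub]
        have f1 : act y v = v + act x w - w := by rw [e1]; abel
        have f2 : act y v' = v' + act x w - w := by rw [e2]; abel
        rw [f1, f2]; abel
      obtain ⟨h7, h8⟩ := single_eq_of_act_eq hy h6 h4
      subst h7
      subst h8
      rfl
    · rw [if_neg hx, if_neg hx, Prod.mk.injEq] at h1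
      obtain ⟨h4, h5⟩ := h1
      subst h4
      have h6 : act x (w - w') = w - w' := by
        rw [act_sub]
        have f1 : act x w = w + act y v - v := by rw [← e1]; abel
        have f2 : act x w' = w' + act y v - v := by rw [← e2]; abel
        rw [f1, f2]; abel
      obtain ⟨h7, h8⟩ := single_eq_of_act_eq hx h6 h5
      subst h7
      subst h8
      rfl
  rw [Nat.card_prod, Nat.card_prod, Nat.card_prod, Nat.card_prod, Nat.card_zmod] at this
  exact this

theorem card_classes_le : p * (Nat.card (ConjClasses (Wr p H)) * Nat.card H) ≤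
    Nat.card (H → ZMod p) * (p + Nat.card H * Nat.card H) := by
  classical
  have h1 := card_comm_eq_card_conjClasses_mul_card (Wr p H)
  have h2 : Nat.card (Wr p H) = Nat.card (H → ZMod p) * Nat.card H := by
    rw [Nat.card_congr (equivProd p H), Nat.card_prod]
  have h3 : Nat.card {q : Wr p H × Wr p H // Commute q.1 q.2} ≤
      Nat.card {q : Wr p H × Wr p H // Commute q.1 q.2 ∧ ¬ (q.1.h = 1 ∧ q.2.h = 1)} +
      Nat.card (H → ZMod p) * Nat.card (H → ZMod p) := by
    rw [← Nat.card_prod, ← Nat.card_sum]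
    apply Nat.card_le_card_of_injective
      (fun q : {q : Wr p H × Wr p H // Commute q.1 q.2} =>
        if h : q.1.1.h = 1 ∧ q.1.2.h = 1 then
          (Sum.inr (q.1.1.v, q.1.2.v) : {q : Wr p H × Wr p H // Commute q.1 q.2 ∧
            ¬ (q.1.h = 1 ∧ q.2.h = 1)} ⊕ ((H → ZMod p) × (H → ZMod p)))
        else Sum.inl ⟨q.1, q.2, h⟩)
    rintro ⟨⟨⟨v, x⟩, ⟨w, y⟩⟩, hq⟩ ⟨⟨⟨v', x'⟩, ⟨w', y'⟩⟩, hq'⟩ h
    simp only at h
    by_cases h4 : x = 1 ∧ y = 1
    · by_cases h5 : x' = 1 ∧ y' = 1
      · rw [dif_pos h4, dif_pos h5] at h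
        simp only [Sum.inr.injEq, Prod.mk.injEq] at h
        obtain ⟨rfl, rfl⟩ := h
        obtain ⟨rfl, rfl⟩ := h4
        obtain ⟨rfl, rfl⟩ := h5
        rfl
      · rw [dif_pos h4, dif_neg h5] at h
        simp at h
    · by_cases h5 : x' = 1 ∧ y' = 1
      · rw [dif_neg h4, dif_pos h5] at h
        simp at h
      · rw [dif_neg h4, dif_neg h5] at h
        simp only [Sum.inl.injEq, Subtype.mk.injEq] at h
        exact Subtype.ext h
  rw [h1, h2] at h3
  have h4 := card_comm_aux (p := p) (H := H)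
  set N := Nat.card (H → ZMod p) with hN
  set k := Nat.card (ConjClasses (Wr p H)) with hk
  set m := Nat.card H with hm
  set C := Nat.card {q : Wr p H × Wr p H // Commute q.1 q.2 ∧ ¬ (q.1.h = 1 ∧ q.2.h = 1)} with hC
  have hNpos : 0 < N := Nat.card_pos
  have h5 : p * (k * (N * m)) ≤ N * N * (m * m) + p * (N * N) := by
    calc p * (k * (N * m)) ≤ p * (C + N * N) := Nat.mul_le_mul_left p h3
      _ = p * C + p * (N * N) := by ring
      _ ≤ N * N * (m * m) + p * (N * N) := by omega
  have h6 : N * (p * (k * m)) ≤ N * (N * (p + m * m)) := by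
    calc N * (p * (k * m)) = p * (k * (N * m)) := by ring
      _ ≤ N * N * (m * m) + p * (N * N) := h5
      _ = N * (N * (p + m * m)) := by ring
  exact Nat.le_of_mul_le_mul_left h6 hNpos

/-- classes meeting the base -/
def baseClasses (p : ℕ) (H : Type) [Group H] : Set (ConjClasses (Wr p H)) :=
  Set.range (fun v : H → ZMod p => ConjClasses.mk (⟨v, 1⟩ : Wr p H))

omit [Fintype H] hp in
theorem conj_base {v w : H → ZMod p} (h : IsConj (⟨v, 1⟩ : Wr p H) ⟨w, 1⟩) :
    ∃ x, act x v = w := by
  obtain ⟨g, hg⟩ := isConj_iff.mp h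
  refine ⟨g.h, ?_⟩
  have h1 := congrArg Wr.v hg
  simp only [mul_v, mul_h, inv_v, mul_one] at h1
  rw [← h1]
  ext z
  simp

theorem card_baseClasses : Nat.card (H → ZMod p) ≤ Nat.card (baseClasses p H) * Nat.card H := by
  classical
  have h1 : ∀ c : baseClasses p H, ∃ v : H → ZMod p, ConjClasses.mk (⟨v, 1⟩ : Wr p H) = c.1 :=
    fun c => c.2
  choose r hr using h1
  rw [← Nat.card_prod]
  apply Nat.card_le_card_of_surjective (fun q : baseClasses p H × H => act q.2 (r q.1))
  intro v
  have h2 := hr ⟨ConjClasses.mk (⟨v, 1⟩ : Wr p H), ⟨v, rfl⟩⟩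
  simp only at h2
  rw [ConjClasses.mk_eq_mk_iff_isConj] at h2
  obtain ⟨x, hx⟩ := conj_base h2
  exact ⟨(⟨ConjClasses.mk (⟨v, 1⟩ : Wr p H), ⟨v, rfl⟩⟩, x), hx⟩

/-- the irreducible characters induced from regular characters of the base -/
def indChars (p : ℕ) [NeZero p] (H : Type) [Group H] [Fintype H] : Set (Irr (Wr p H)) :=
  {χ | ∃ a : H → ZMod p, Regular a ∧ (FDRep.of (rep a)).character = χ.1}

theorem card_indChars : Nat.card {a : H → ZMod p // Regular a} ≤
    Nat.card (indChars p H) * Nat.card H := by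
  classical
  have hfin : Finite (Irr (Wr p H)) := finite_irr _
  have h1 : ∀ χ : indChars p H, ∃ a : H → ZMod p, Regular a ∧
    (FDRep.of (rep a)).character = χ.1.1 := fun χ => χ.2
  choose r hr1 hr2 using h1
  have hreg : ∀ (x : H) (a : H → ZMod p), Regular a → Regular (act x a) := by
    intro x a ha y hy
    have : act (x⁻¹ * y * x) a = a := by
      rw [act_mul, act_mul, hy, ← act_mul, inv_mul_cancel, act_one]
    have h2 := ha _ this
    have h3 : y = x * (x⁻¹ * y * x) * x⁻¹ := by group
    rw [h3, h2]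
    simp
  rw [← Nat.card_prod]
  apply Nat.card_le_card_of_surjective
    (fun q : indChars p H × H => (⟨act q.2 (r q.1), hreg _ _ (hr1 q.1)⟩ :
      {a : H → ZMod p // Regular a}))
  rintro ⟨b, hb⟩
  have hsimple := simple_rep hb
  let χ : indChars p H := ⟨⟨(FDRep.of (rep b)).character, ⟨_, hsimple, rfl⟩⟩, ⟨b, hb, rfl⟩⟩
  obtain ⟨y, hy⟩ := exists_act_eq_of_char_eq (hr2 χ)
  exact ⟨(χ, y), Subtype.ext hy⟩

theorem nonvanishing (hlt : Fintype.card H < p) (c : baseClasses p H) (χ : indChars p H) :
    ¬ ∀ g ∈ c.1.carrier, χ.1.1 g = 0 := by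
  intro h
  obtain ⟨v, hv⟩ := c.2
  obtain ⟨a, ha, haχ⟩ := χ.2
  have h1 := h (⟨v, 1⟩ : Wr p H) (by rw [← hv]; exact ConjClasses.mem_carrier_mk)
  rw [← haχ] at h1
  classical
  rw [char_rep, if_pos rfl] at h1
  have h2 := dvd_card_of_sum_eq_zero _ h1
  have h3 : 0 < Fintype.card H := Fintype.card_pos
  exact absurd (Nat.le_of_dvd h3 h2) (by omega)

theorem card_zeros (hlt : Fintype.card H < p) :
    Nat.card {q : ConjClasses (Wr p H) × Irr (Wr p H) // ∀ g ∈ q.1.carrier, q.2.1 g = 0} +
      Nat.card (baseClasses p H) * Nat.card (indChars p H) ≤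
    Nat.card (ConjClasses (Wr p H)) * Nat.card (Irr (Wr p H)) := by
  have hfin : Finite (Irr (Wr p H)) := finite_irr _
  rw [← Nat.card_prod, ← Nat.card_prod, ← Nat.card_sum]
  apply Nat.card_le_card_of_injective (Sum.elim (fun q => q.1) (fun q => (q.1.1, q.2.1)))
  apply Function.Injective.sumElim
  · exact Subtype.val_injective
  · rintro ⟨c, χ⟩ ⟨c', χ'⟩ h
    simp only [Prod.mk.injEq] at h ⊢
    exact ⟨Subtype.ext h.1, Subtype.ext h.2⟩
  · rintro ⟨q, hq⟩ ⟨c, χ⟩ h
    simp only at h
    subst h
    exact nonvanishing hlt c χ hq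

omit [Group H] [Fintype H] hp in
theorem real_estimate {p m k I A B N R S Z : ℝ} (hk : 0 < k) (hN : 0 < N) (hm : 1 ≤ m)
    (hpm : m < p) (hA : 0 ≤ A) (hB : 0 ≤ B) (hI0 : 0 ≤ I)
    (f1 : p * (k * m) ≤ N * (p + m * m)) (f2 : N ≤ A * m) (f3 : R ≤ B * m)
    (f4 : p * S ≤ N * m) (f5 : Z + A * B ≤ k * I) (f6 : I ≤ k) (f7 : R + S = N) :
    Z / (k * I) ≤ 3 * m ^ 2 / p := by
  have hp0 : 0 < p := by linarith
  have hm0 : 0 < m := by linarith
  -- main estimate: `A B ≥ k² p (p - m) / (p + m²)²`
  have g1 : N * (p - m) ≤ p * (B * m) := by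
    have : p * R ≤ p * (B * m) := mul_le_mul_of_nonneg_left f3 hp0.le
    have h2 : p * R = p * N - p * S := by rw [← f7]; ring
    linarith
  have g2 : N * N * (p - m) ≤ p * ((A * m) * (B * m)) := by
    calc N * N * (p - m) = N * (N * (p - m)) := by ring
      _ ≤ (A * m) * (p * (B * m)) := by
        apply mul_le_mul f2 g1
        · exact mul_nonneg hN.le (by linarith)
        · exact le_trans hN.le f2
      _ = p * ((A * m) * (B * m)) := by ring
  have g3 : (p * (k * m)) ^ 2 ≤ (N * (p + m * m)) ^ 2 := by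
    apply pow_le_pow_left₀ _ f1
    positivity
  have hpm0 : 0 ≤ p - m := by linarith
  have g4 : p * (p - m) * k ^ 2 ≤ A * B * (p + m * m) ^ 2 := by
    have : (p * m ^ 2) * (p * (p - m) * k ^ 2) ≤ (p * m ^ 2) * (A * B * (p + m * m) ^ 2) := by
      calc (p * m ^ 2) * (p * (p - m) * k ^ 2) = (p * (k * m)) ^ 2 * (p - m) := by ring
        _ ≤ (N * (p + m * m)) ^ 2 * (p - m) := mul_le_mul_of_nonneg_right g3 hpm0
        _ = (N * N * (p - m)) * (p + m * m) ^ 2 := by ring
        _ ≤ (p * ((A * m) * (B * m))) * (p + m * m) ^ 2 :=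
          mul_le_mul_of_nonneg_right g2 (by positivity)
        _ = (p * m ^ 2) * (A * B * (p + m * m) ^ 2) := by ring
    exact le_of_mul_le_mul_left this (by positivity)
  rcases eq_or_lt_of_le hI0 with hI | hI
  · rw [← hI, mul_zero, div_zero]
    positivity
  · rw [div_le_iff₀ (by positivity)]
    have g5 : Z ≤ k * I - A * B := by linarith
    refine g5.trans ?_
    have hq : 0 < p + m * m := by positivity
    have g6 : k * I * (1 - 3 * m ^ 2 / p) ≤ A * B := by
      by_cases hneg : 1 - 3 * m ^ 2 / p ≤ 0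
      · have h1 : k * I * (1 - 3 * m ^ 2 / p) ≤ 0 :=
          mul_nonpos_of_nonneg_of_nonpos (by positivity) hneg
        exact h1.trans (by positivity)
      · push Not at hneg
        have h1 : k * I * (1 - 3 * m ^ 2 / p) ≤ k ^ 2 * (1 - 3 * m ^ 2 / p) := by
          apply mul_le_mul_of_nonneg_right _ hneg.le
          rw [sq]
          exact mul_le_mul_of_nonneg_left f6 hk.le
        refine h1.trans ?_
        have h2 : (1 - 3 * m ^ 2 / p) * (p + m * m) ^ 2 ≤ p * (p - m) := by
          have h3 : (1 - 3 * m ^ 2 / p) = (p - 3 * m ^ 2) / p := by field_simp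
          rw [h3, div_mul_eq_mul_div, div_le_iff₀ hp0]
          have h4 : m ≤ m ^ 2 := by nlinarith
          have h5 : 0 ≤ p * p * (m ^ 2 - m) := by
            apply mul_nonneg (by positivity); linarith
          have h6 : 0 ≤ 5 * (p * m ^ 4) := by positivity
          have h7 : 0 ≤ 3 * m ^ 6 := by positivity
          have h8 : p * (p - m) * p - (p - 3 * m ^ 2) * (p + m * m) ^ 2 =
            p * p * (m ^ 2 - m) + 5 * (p * m ^ 4) + 3 * m ^ 6 := by ring
          linarith
        have h6 : k ^ 2 * (1 - 3 * m ^ 2 / p) * (p + m * m) ^ 2 ≤ A * B * (p + m * m) ^ 2 := by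
          calc k ^ 2 * (1 - 3 * m ^ 2 / p) * (p + m * m) ^ 2
              = k ^ 2 * ((1 - 3 * m ^ 2 / p) * (p + m * m) ^ 2) := by ring
            _ ≤ k ^ 2 * (p * (p - m)) := mul_le_mul_of_nonneg_left h2 (by positivity)
            _ = p * (p - m) * k ^ 2 := by ring
            _ ≤ _ := g4
        exact le_of_mul_le_mul_right h6 (by positivity)
    have g7 : k * I * (1 - 3 * m ^ 2 / p) = k * I - 3 * m ^ 2 / p * (k * I) := by ring
    linarith

theorem zeroProportion_le (hlt : Fintype.card H < p) :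
    zeroProportion (Wr p H) ≤ 3 * (Fintype.card H : ℝ) ^ 2 / p := by
  have hfin : Finite (Irr (Wr p H)) := finite_irr _
  have e1 := card_classes_le (p := p) (H := H)
  have e2 := card_baseClasses (p := p) (H := H)
  have e3 := card_indChars (p := p) (H := H)
  have e4 := card_not_regular (p := p) (H := H)
  have e5 := card_zeros (p := p) (H := H) hlt
  have e6 := card_irr_le (Wr p H)
  have e7 : Nat.card {a : H → ZMod p // Regular a} + Nat.card {a : H → ZMod p // ¬ Regular a} =
      Nat.card (H → ZMod p) := by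
    classical
    rw [← Nat.card_sum]
    exact Nat.card_congr (Equiv.sumCompl _)
  unfold zeroProportion
  rw [Nat.card_eq_fintype_card (α := H)] at e1 e2 e3 e4
  have hkpos : 0 < Nat.card (ConjClasses (Wr p H)) := by
    have : Nonempty (ConjClasses (Wr p H)) := ⟨ConjClasses.mk 1⟩
    exact Nat.card_pos
  have hNpos : 0 < Nat.card (H → ZMod p) := Nat.card_pos
  have hmpos : 0 < Fintype.card H := Fintype.card_pos
  generalize Nat.card {q : ConjClasses (Wr p H) × Irr (Wr p H) // ∀ g ∈ q.1.carrier, q.2.1 g = 0}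
    = Z at *
  generalize Nat.card (ConjClasses (Wr p H)) = k at *
  generalize Nat.card (Irr (Wr p H)) = I at *
  generalize Nat.card (baseClasses p H) = A at *
  generalize Nat.card (indChars p H) = B at *
  generalize Nat.card {a : H → ZMod p // Regular a} = R at *
  generalize Nat.card {a : H → ZMod p // ¬ Regular a} = S at *
  generalize Nat.card (H → ZMod p) = N at *
  generalize Fintype.card H = m at *
  -- cast everything to the reals
  have f1 : (p : ℝ) * (k * m) ≤ N * (p + m * m) := by exact_mod_cast e1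
  have f2 : (N : ℝ) ≤ A * m := by exact_mod_cast e2
  have f3 : (R : ℝ) ≤ B * m := by exact_mod_cast e3
  have f4 : (p : ℝ) * S ≤ N * m := by exact_mod_cast e4
  have f5 : (Z : ℝ) + A * B ≤ k * I := by exact_mod_cast e5
  have f6 : (I : ℝ) ≤ k := by exact_mod_cast e6
  have f7 : (R : ℝ) + S = N := by exact_mod_cast e7
  have hk : (0 : ℝ) < k := by exact_mod_cast hkpos
  have hN : (0 : ℝ) < N := by exact_mod_cast hNpos
  have hm : (1 : ℝ) ≤ m := by exact_mod_cast hmpos
  have hpm : (m : ℝ) < p := by exact_mod_cast hlt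
  have hp0 : (0 : ℝ) < p := by linarith
  have hA : (0 : ℝ) ≤ A := Nat.cast_nonneg _
  have hB : (0 : ℝ) ≤ B := Nat.cast_nonneg _
  have hI0 : (0 : ℝ) ≤ I := Nat.cast_nonneg _
  have hZ0 : (0 : ℝ) ≤ Z := Nat.cast_nonneg _
  exact real_estimate hk hN hm hpm hA hB hI0 f1 f2 f3 f4 f5 f6 f7

end Counting

end Characters

end Wr

/-- There are finite solvable groups of arbitrarily large Fitting height. -/
theorem exists_large_height (n : ℕ) : ∃ (H : Type) (_ : Group H) (_ : Finite H),
    Group.IsSolvable H ∧ n ≤ fittingHeight H := by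
  induction n with
  | zero => exact ⟨Unit, inferInstance, inferInstance, inferInstance, Nat.zero_le _⟩
  | succ n ih =>
    obtain ⟨H, hG, hF, hS, hn⟩ := ih
    obtain ⟨p, hp, hprime⟩ := Nat.exists_infinite_primes (Nat.card H + 1)
    have : Fact p.Prime := ⟨hprime⟩
    have hc : (Nat.card H).Coprime p := by
      rw [Nat.coprime_comm, Nat.Prime.coprime_iff_not_dvd hprime]
      intro h
      have := Nat.le_of_dvd Nat.card_pos h
      omega
    refine ⟨Wr p H, inferInstance, inferInstance, Wr.solvable, ?_⟩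
    have := Wr.fittingHeight_succ_le (p := p) (H := H) hc
    omega

theorem exists_group (n : ℕ) : ∃ (G : Type) (_ : Group G) (_ : Finite G),
    Group.IsSolvable G ∧ n ≤ fittingHeight G ∧ zeroProportion G ≤ 1 / ((n : ℝ) + 1) := by
  obtain ⟨H, hG, hF, hS, hn⟩ := exists_large_height n
  have : Fintype H := Fintype.ofFinite H
  obtain ⟨p, hp, hprime⟩ := Nat.exists_infinite_primes
    (3 * (Fintype.card H) ^ 2 * (n + 1) + Fintype.card H + 1)
  have : Fact p.Prime := ⟨hprime⟩
  have hmpos : 0 < Fintype.card H := Fintype.card_pos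
  have hlt : Fintype.card H < p := by
    have : 0 ≤ 3 * (Fintype.card H) ^ 2 * (n + 1) := Nat.zero_le _
    omega
  have hc : (Nat.card H).Coprime p := by
    rw [Nat.coprime_comm, Nat.Prime.coprime_iff_not_dvd hprime]
    intro h
    have := Nat.le_of_dvd Nat.card_pos h
    rw [Nat.card_eq_fintype_card] at this
    omega
  refine ⟨Wr p H, inferInstance, inferInstance, Wr.solvable, ?_, ?_⟩
  · have := Wr.fittingHeight_succ_le (p := p) (H := H) hc
    omega
  · refine (Wr.zeroProportion_le hlt).trans ?_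
    have hp0 : (0 : ℝ) < p := by exact_mod_cast hprime.pos
    rw [div_le_div_iff₀ hp0 (by positivity), one_mul]
    have : 3 * (Fintype.card H) ^ 2 * (n + 1) ≤ p := by omega
    exact_mod_cast this

end Pool.Agent.MP_c522d4_al
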